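import Pool.Agent.H85.Rho.G2core
import Pool.Agent.H27.Rho.E
import Pool.Agent.H51.Rho.F

/-! Module G2: cost of one prime -/

open Finset Real

namespace Pool.Agent.H85.Rho

theorem tendsto_logN : Filter.Tendsto (fun y : ℕ => Real.log (y : ℝ)) Filter.atTop Filter.atTop :=
  Real.tendsto_log_atTop.comp tendsto_natCast_atTop_atTop

theorem ev_pow (k : ℕ) (r : ℝ) (hr : 0 < r) (K : ℝ) :
    ∀ᶠ y : ℕ in Filter.atTop, K * (Real.log y) ^ k ≤ Real.exp (r * Real.log y) := by
  have h := (isLittleO_pow_exp_pos_mul_atTop k hr).bound (c := 1 / (|K| + 1)) (by positivity)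
  filter_upwards [tendsto_logN.eventually h, tendsto_logN.eventually_ge_atTop 0] with y hy h0
  rw [Real.norm_of_nonneg (by positivity), Real.norm_of_nonneg (by positivity)] at hy
  have h1 : (|K| + 1) * (Real.log y) ^ k ≤ Real.exp (r * Real.log y) := by
    have := mul_le_mul_of_nonneg_left hy (show 0 ≤ |K| + 1 by positivity)
    calc _ ≤ _ := this
      _ = _ := by field_simp
  have h2 : 0 ≤ (Real.log (y : ℝ)) ^ k := by positivity
  have h3 : K ≤ |K| + 1 := (le_abs_self K).trans (by linarith)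
  nlinarith

theorem TT_le' (y : ℝ) (hy : Real.exp 1 ≤ Real.log y) : TT y ≤ (Real.log y) ^ 2 := by
  unfold TT
  have h0 : 0 < Real.log y := (Real.exp_pos 1).trans_le hy
  have h1 : 1 ≤ Real.log (Real.log y) := by
    rw [← Real.log_exp 1]
    exact Real.log_le_log (Real.exp_pos 1) hy
  have h2 : (Real.log (Real.log y)) ^ (1 / 4 : ℝ) ≤ Real.log (Real.log y) := by
    calc (Real.log (Real.log y)) ^ (1 / 4 : ℝ) ≤ (Real.log (Real.log y)) ^ (1 : ℝ) :=
          Real.rpow_le_rpow_of_exponent_le h1 (by norm_num)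
      _ = _ := Real.rpow_one _
  have h3 : Real.exp ((Real.log (Real.log y)) ^ (1 / 4 : ℝ)) ≤ Real.log y := by
    calc _ ≤ Real.exp (Real.log (Real.log y)) := Real.exp_le_exp.2 h2
      _ = _ := Real.exp_log h0
  nlinarith

theorem prod_pr_le (w z : ℕ) : ((∏ l ∈ pr w z, l : ℕ) : ℝ) ≤ Real.exp (z * 1.4) := by
  have h1 : ∏ l ∈ pr w z, l ≤ primorial z := by
    rw [primorial]
    apply Finset.prod_le_prod_of_subset_of_one_le'
    · intro l hl
      rw [mem_pr] at hl
      rw [Finset.mem_filter, Finset.mem_range]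
      exact ⟨by omega, hl.2⟩
    · intro l hl _
      exact (Finset.mem_filter.1 hl).2.one_le
  have h2 := h1.trans (primorial_le_four_pow z)
  have h3 : ((∏ l ∈ pr w z, l : ℕ) : ℝ) ≤ (4 : ℝ) ^ z := by exact_mod_cast h2
  refine h3.trans ?_
  have h4 : Real.log 4 ≤ 1.4 := by
    have : Real.log 4 = 2 * Real.log 2 := by
      rw [show (4 : ℝ) = 2 ^ 2 by norm_num, Real.log_pow]; norm_num
    rw [this]
    have := Real.log_two_lt_d9
    linarith
  calc (4 : ℝ) ^ z = Real.exp (Real.log 4 * z) := by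
        rw [Real.exp_mul, Real.exp_log (by norm_num), Real.rpow_natCast]
    _ ≤ _ := by
        apply Real.exp_le_exp.2
        rw [mul_comm]
        gcongr

theorem cost_one (w : ℕ) : ∃ C : ℝ, 0 < C ∧ ∃ y0 : ℕ, ∀ y : ℕ, y0 ≤ y → ∀ q ∈ pr (PP y) (QQ y),
    ∃ c : ℕ, (((Finset.Icc 1 y).filter (fun n => n ≡ c [MOD q] ∧
        ∀ p ∈ pr w (PP y), ¬ p ∣ n)).card : ℝ) ≤
      C * (y / q) / (Real.log y * (Real.log (Real.log y)) ^ (1 / 2 : ℝ)) := by
  obtain ⟨z0, hcov⟩ := cover w
  obtain ⟨C1, hC1, hsv⟩ := sieve_ap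
  refine ⟨12 * C1, by positivity, ?_⟩
  -- eventual facts
  have hll : Filter.Tendsto (fun y : ℕ => Real.log (Real.log (y : ℝ))) Filter.atTop Filter.atTop :=
    Real.tendsto_log_atTop.comp tendsto_logN
  have ev : ∀ᶠ y : ℕ in Filter.atTop, ∀ q ∈ pr (PP y) (QQ y),
    ∃ c : ℕ, (((Finset.Icc 1 y).filter (fun n => n ≡ c [MOD q] ∧
        ∀ p ∈ pr w (PP y), ¬ p ∣ n)).card : ℝ) ≤
      12 * C1 * (y / q) / (Real.log y * (Real.log (Real.log y)) ^ (1 / 2 : ℝ)) := by
    filter_upwards [tendsto_logN.eventually_ge_atTop (4 * ((max z0 w : ℕ) + 100 : ℝ)),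
      hll.eventually_ge_atTop 120, ev_pow 2 (3 / 20) (by norm_num) 2,
      ev_pow 3 (7 / 8) (by norm_num) 1, Filter.eventually_ge_atTop 3] with y hL1 hll1 h3 h4 hy3
    intro q hq
    rw [mem_pr] at hq
    obtain ⟨⟨hqP, hqQ⟩, hqp⟩ := hq
    set L := Real.log (y : ℝ) with hL
    have hmax : (0 : ℝ) ≤ (max z0 w : ℕ) := Nat.cast_nonneg _
    have hL400 : 400 ≤ L := by linarith
    have hL0 : 0 < L := by linarith
    have hy0 : (0 : ℝ) < y := by
      have : 0 < y := by omega
      exact_mod_cast this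
    have hyexp : Real.exp L = y := Real.exp_log hy0
    set z := ⌊L / 4⌋₊ with hz
    have hzle : (z : ℝ) ≤ L / 4 := Nat.floor_le (by positivity)
    have hzgt : L / 4 < z + 1 := Nat.lt_floor_add_one _
    have hzmax : max z0 w + 99 ≤ z := by
      rw [hz, Nat.le_floor_iff (by positivity)]
      push_cast
      push_cast at hL1
      linarith
    have hzz0 : z0 ≤ z := by have := le_max_left z0 w; omega
    have hzw : w ≤ z := by have := le_max_right z0 w; omega
    have hz99 : 99 ≤ z := by omega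
    have hz99' : (99 : ℝ) ≤ z := by exact_mod_cast hz99
    have he1 : Real.exp 1 ≤ L := by
      have := Real.exp_one_lt_d9
      linarith
    have hTT : TT y ≤ L ^ 2 := TT_le' y he1
    have hTTL : L ≤ TT y := by
      unfold TT
      rw [← hL]
      have : 1 ≤ Real.exp ((Real.log L) ^ (1 / 4 : ℝ)) := by
        apply Real.one_le_exp
        positivity
      nlinarith
    have hTT0 : 0 < TT y := by linarith
    have hPlt : (y : ℝ) / TT y < PP y + 1 := Nat.lt_floor_add_one _
    have hqgt : (y : ℝ) / TT y < q := by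
      have : ((PP y : ℕ) : ℝ) + 1 ≤ q := by exact_mod_cast hqP
      linarith
    have hq0 : (0 : ℝ) < q := by exact_mod_cast hqp.pos
    have hQle : (q : ℝ) ≤ 8 * y / L := by
      have h5 : ((QQ y : ℕ) : ℝ) ≤ 8 * y / L := Nat.floor_le (by positivity)
      have h6 : (q : ℝ) ≤ QQ y := by exact_mod_cast hqQ
      linarith
    have hqy : (q : ℝ) ≤ y := by
      refine hQle.trans ?_
      rw [div_le_iff₀ hL0]
      nlinarith
    have hyL2 : (y : ℝ) / L ^ 2 ≤ y / TT y := by gcongr
    -- `z ≤ PP y`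
    have h4' : L ^ 3 ≤ Real.exp (7 / 8 * L) := by simpa using h4
    have hexp78 : Real.exp (7 / 8 * L) * Real.exp (1 / 8 * L) = y := by
      rw [← Real.exp_add, ← hyexp]; congr 1; ring
    have hexp18 : L ≤ Real.exp (7 / 8 * L) := by
      calc L = L ^ 1 := (pow_one _).symm
        _ ≤ L ^ 3 := pow_le_pow_right₀ (by linarith) (by norm_num)
        _ ≤ _ := h4'
    have hyl2 : Real.exp (1 / 8 * L) * L ≤ (y : ℝ) / L ^ 2 := by
      rw [le_div_iff₀ (by positivity)]
      calc Real.exp (1 / 8 * L) * L * L ^ 2 = L ^ 3 * Real.exp (1 / 8 * L) := by ring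
        _ ≤ Real.exp (7 / 8 * L) * Real.exp (1 / 8 * L) := by gcongr
        _ = y := hexp78
    have hexp18' : 1 ≤ Real.exp (1 / 8 * L) := Real.one_le_exp (by positivity)
    have hzP : z ≤ PP y := by
      unfold PP
      rw [Nat.le_floor_iff (by positivity)]
      calc (z : ℝ) ≤ L := by linarith
        _ ≤ Real.exp (1 / 8 * L) * L := by nlinarith
        _ ≤ _ := hyl2
        _ ≤ _ := hyL2
    have hzq : z < q := by omega
    -- the modulus
    set G := ∏ l ∈ pr w z, l with hG
    have hGpos : 0 < G := Finset.prod_pos fun l hl => (mem_pr.1 hl).2.pos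
    have hGpos' : (0 : ℝ) < G := by exact_mod_cast hGpos
    have hGle : (G : ℝ) ≤ Real.exp (7 / 20 * L) := by
      refine (prod_pr_le w z).trans (Real.exp_le_exp.2 ?_)
      nlinarith
    set X := q / G with hX
    have hXlow : Real.exp (1 / 2 * L) ≤ X := by
      have h5 : (q : ℝ) / G < X + 1 := by
        rw [div_lt_iff₀ hGpos']
        have := Nat.lt_mul_div_succ q hGpos
        calc (q : ℝ) < ((G * (q / G + 1) : ℕ) : ℝ) := by exact_mod_cast this
          _ = _ := by push_cast; ring
      have h6 : 2 * Real.exp (1 / 2 * L) ≤ (q : ℝ) / G := by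
        rw [le_div_iff₀ hGpos']
        calc 2 * Real.exp (1 / 2 * L) * G ≤ 2 * Real.exp (1 / 2 * L) * Real.exp (7 / 20 * L) := by gcongr
          _ = 2 * Real.exp (17 / 20 * L) := by
              rw [mul_assoc, ← Real.exp_add]; congr 2; ring
          _ ≤ y / L ^ 2 := by
              rw [le_div_iff₀ (by positivity)]
              calc 2 * Real.exp (17 / 20 * L) * L ^ 2 = (2 * L ^ 2) * Real.exp (17 / 20 * L) := by ring
                _ ≤ Real.exp (3 / 20 * L) * Real.exp (17 / 20 * L) := by gcongr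
                _ = y := by rw [← Real.exp_add, ← hyexp]; congr 1; ring
          _ ≤ y / TT y := hyL2
          _ ≤ q := hqgt.le
      have h7 : 1 ≤ Real.exp (1 / 2 * L) := Real.one_le_exp (by positivity)
      linarith
    have hX2' : (2 : ℝ) ≤ X := by
      refine le_trans ?_ hXlow
      have := Real.add_one_le_exp (1 / 2 * L)
      linarith
    have hX2 : 2 ≤ X := by exact_mod_cast hX2'
    have hX0 : (0 : ℝ) < X := by linarith
    have hXq : X ≤ q := Nat.div_le_self _ _
    have hXlog : 1 / 2 * L ≤ Real.log X := by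
      rw [← Real.log_exp (1 / 2 * L)]
      exact Real.log_le_log (Real.exp_pos _) hXlow
    have hXP : ⌊(X : ℝ) ^ (1 / 8 : ℝ)⌋₊ ≤ PP y := by
      unfold PP
      apply Nat.floor_le_floor
      calc (X : ℝ) ^ (1 / 8 : ℝ) ≤ (y : ℝ) ^ (1 / 8 : ℝ) := by
            have : (X : ℝ) ≤ y := le_trans (by exact_mod_cast hXq) hqy
            gcongr
        _ = Real.exp (1 / 8 * L) := by
            rw [Real.rpow_def_of_pos hy0, mul_comm]
        _ ≤ Real.exp (1 / 8 * L) * L := by nlinarith
        _ ≤ _ := hyl2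
        _ ≤ _ := hyL2
    -- the covering
    set J := y / q with hJ
    have hJle : (J : ℝ) ≤ y / q := Nat.cast_div_le
    have hlogz : Real.log L / 2 ≤ Real.log z := by
      have h5 : Real.sqrt L ≤ z := by
        have h6 : Real.sqrt L ≤ L / 4 - 1 := by
          have h7 : Real.sqrt L * Real.sqrt L = L := Real.mul_self_sqrt hL0.le
          have h8 : 20 ≤ Real.sqrt L := by
            rw [show (20 : ℝ) = Real.sqrt 400 by
              rw [show (400 : ℝ) = 20 ^ 2 by norm_num]; rw [Real.sqrt_sq (by norm_num)]]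
            exact Real.sqrt_le_sqrt hL400
          nlinarith
        linarith
      calc Real.log L / 2 = Real.log (Real.sqrt L) := by rw [Real.log_sqrt hL0.le]
        _ ≤ _ := Real.log_le_log (Real.sqrt_pos.2 hL0) h5
    have hlogL50 : 120 ≤ Real.log L := hll1
    have hlogz0 : 0 < Real.log z := by linarith
    have hJ' : (J : ℝ) ≤ z * Real.exp (2 * (Real.log z) ^ (1 / 4 : ℝ)) := by
      refine hJle.trans ?_
      have h5 : (y : ℝ) / q ≤ TT y := by
        rw [div_le_iff₀ hq0]
        rw [div_lt_iff₀ hTT0] at hqgt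
        linarith
      refine h5.trans ?_
      unfold TT
      rw [← hL]
      set l4 := (Real.log L) ^ (1 / 4 : ℝ) with hl4
      have h6 : 3 / 4 * l4 ≤ (Real.log z) ^ (1 / 4 : ℝ) := by
        have h7 : (3 / 4 : ℝ) = ((3 / 4 : ℝ) ^ (4 : ℝ)) ^ (1 / 4 : ℝ) := by
          rw [← Real.rpow_mul (by norm_num)]
          norm_num
        rw [hl4, h7, ← Real.mul_rpow (by positivity) (by positivity)]
        apply Real.rpow_le_rpow (by positivity) _ (by norm_num)
        have : (3 / 4 : ℝ) ^ (4 : ℝ) = 81 / 256 := by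
          rw [show (4 : ℝ) = ((4 : ℕ) : ℝ) by norm_num, Real.rpow_natCast]; norm_num
        rw [this]
        nlinarith
      have hl42 : 3.3 ≤ l4 := by
        have h7 : (3.3 : ℝ) = ((3.3 : ℝ) ^ (4 : ℝ)) ^ (1 / 4 : ℝ) := by
          rw [← Real.rpow_mul (by norm_num)]
          norm_num
        rw [hl4, h7]
        apply Real.rpow_le_rpow (by positivity) _ (by norm_num)
        have : (3.3 : ℝ) ^ (4 : ℝ) = 118.5921 := by
          rw [show (4 : ℝ) = ((4 : ℕ) : ℝ) by norm_num, Real.rpow_natCast]; norm_num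
        rw [this]
        linarith
      have h8 : Real.exp (3 / 2 * l4) ≤ Real.exp (2 * (Real.log z) ^ (1 / 4 : ℝ)) :=
        Real.exp_le_exp.2 (by linarith)
      have h9 : Real.exp (3 / 2 * l4) = Real.exp l4 * Real.exp (1 / 2 * l4) := by
        rw [← Real.exp_add]; congr 1; ring
      have h10 : 5 ≤ Real.exp (1 / 2 * l4) := by
        have h11 : Real.exp (1.65) ≤ Real.exp (1 / 2 * l4) := Real.exp_le_exp.2 (by linarith)
        refine le_trans ?_ h11
        have h12 : Real.exp 1.65 = (Real.exp 0.825) ^ 2 := by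
          rw [← Real.exp_nat_mul]; norm_num
        have h13 : 2.24 ≤ Real.exp 0.825 := by
          have := Real.quadratic_le_exp_of_nonneg (show (0 : ℝ) ≤ 0.825 by norm_num)
          have h14 : Real.exp 0.825 = (Real.exp 0.4125) ^ 2 := by
            rw [← Real.exp_nat_mul]; norm_num
          have := Real.quadratic_le_exp_of_nonneg (show (0 : ℝ) ≤ 0.4125 by norm_num)
          rw [h14]
          nlinarith
        rw [h12]
        nlinarith
      have hel : 0 < Real.exp l4 := Real.exp_pos _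
      calc L * Real.exp l4 ≤ (z * 5) * Real.exp l4 := by
            have : L ≤ z * 5 := by linarith
            gcongr
        _ ≤ (z * Real.exp (1 / 2 * l4)) * Real.exp l4 := by gcongr
        _ = z * Real.exp (3 / 2 * l4) := by rw [h9]; ring
        _ ≤ _ := by gcongr
    obtain ⟨h, hh⟩ := hcov z hzz0 J hJ'
    have hXG : G * X ≤ q := Nat.mul_div_le q G
    obtain ⟨c, hc⟩ := cost_core (w := w) (y := y) hqp hzq hzP h hX2 hXG hzw hXP
      (C1 * X * Real.log z / Real.log X) (fun G b hG => hsv z (by omega) G b X hX2 hG)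
    refine ⟨c, hc.trans ?_⟩
    have hlogX0 : 0 < Real.log X := by linarith
    have hB : C1 * X * Real.log z / Real.log X / X = C1 * Real.log z / Real.log X := by
      field_simp
    rw [hB]
    have hyq0 : (0 : ℝ) < y / q := by positivity
    have hzyq : (z : ℝ) ≤ 2 * (y / q) := by
      have h5 : L / 8 ≤ y / q := by
        rw [le_div_iff₀ hq0]
        rw [le_div_iff₀ hL0] at hQle
        nlinarith
      linarith
    have hU : ((J : ℝ) + z) / (Real.log z) ^ (3 / 2 : ℝ) ≤ 3 * (y / q) / (Real.log z) ^ (3 / 2 : ℝ) := by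
      gcongr
      linarith
    have hlz32 : (Real.log z) ^ (3 / 2 : ℝ) = Real.log z * (Real.log z) ^ (1 / 2 : ℝ) := by
      rw [show (3 / 2 : ℝ) = 1 + 1 / 2 by norm_num, Real.rpow_add hlogz0, Real.rpow_one]
    have hsq : (Real.log L) ^ (1 / 2 : ℝ) ≤ 2 * (Real.log z) ^ (1 / 2 : ℝ) := by
      rw [← Real.sqrt_eq_rpow, ← Real.sqrt_eq_rpow]
      rw [show 2 * Real.sqrt (Real.log z) = Real.sqrt (4 * Real.log z) by
        rw [Real.sqrt_mul (by norm_num), show (4 : ℝ) = 2 ^ 2 by norm_num, Real.sqrt_sq (by norm_num)]]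
      apply Real.sqrt_le_sqrt
      linarith
    have hlz12 : 0 < (Real.log z) ^ (1 / 2 : ℝ) := by positivity
    have hlL12 : 0 < (Real.log L) ^ (1 / 2 : ℝ) := by
      have : 0 < Real.log L := by linarith
      positivity
    calc _ ≤ (3 * (y / q) / (Real.log z) ^ (3 / 2 : ℝ)) * (C1 * Real.log z / Real.log X) := by
          apply mul_le_mul_of_nonneg_right (hh.trans hU)
          positivity
      _ = 3 * (y / q) * C1 / ((Real.log z) ^ (1 / 2 : ℝ) * Real.log X) := by
          rw [hlz32]; field_simp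
      _ ≤ 3 * (y / q) * C1 / (((Real.log L) ^ (1 / 2 : ℝ) / 2) * (1 / 2 * L)) := by
          gcongr
          linarith
      _ = 12 * C1 * (y / q) / (L * (Real.log L) ^ (1 / 2 : ℝ)) := by
          field_simp
          ring
  obtain ⟨y0, hy0⟩ := Filter.eventually_atTop.1 ev
  exact ⟨y0, hy0⟩

end Pool.Agent.H85.Rho
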