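import Pool.Agent.H74.Rho.A
import Pool.Agent.H74.Rho.B
import Pool.Agent.H80.Rho.G3
import Pool.Agent.H85.Rho.G2
import Pool.Agent.H74.Rho.D

/-! Module H: assembly -/

open Finset Real

namespace Pool.Agent.H85.Rho

theorem card_pr_ge (a b : ℕ) : (Nat.primeCounting b : ℝ) - Nat.primeCounting a ≤ ((pr a b).card : ℝ) := by
  rcases Nat.le_total b a with h | h
  · have h1 : Nat.primeCounting b ≤ Nat.primeCounting a := Nat.monotone_primeCounting h
    have h2 : (Nat.primeCounting b : ℝ) ≤ Nat.primeCounting a := by exact_mod_cast h1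
    have h3 : (0 : ℝ) ≤ ((pr a b).card : ℝ) := Nat.cast_nonneg _
    linarith
  · have e1 : ∀ n, Nat.primeCounting n = ((Finset.Ioc 0 n).filter Nat.Prime).card := by
      intro n
      rw [Nat.primeCounting, Nat.primeCounting', Nat.count_eq_card_filter_range]
      congr 1
      ext p
      simp only [Finset.mem_filter, Finset.mem_range, Finset.mem_Ioc]
      constructor
      · rintro ⟨h1, h2⟩; exact ⟨⟨h2.pos, by omega⟩, h2⟩
      · rintro ⟨h1, h2⟩; exact ⟨by omega, h2⟩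
    have e2 : (Finset.Ioc 0 b).filter Nat.Prime = (Finset.Ioc 0 a).filter Nat.Prime ∪ pr a b := by
      rw [pr, ← Finset.filter_union, Finset.Ioc_union_Ioc_eq_Ioc (Nat.zero_le _) h]
    have e3 : ((Finset.Ioc 0 b).filter Nat.Prime).card ≤
        ((Finset.Ioc 0 a).filter Nat.Prime).card + (pr a b).card := by
      rw [e2]; exact Finset.card_union_le _ _
    rw [← e1, ← e1] at e3
    have : (Nat.primeCounting b : ℝ) ≤ Nat.primeCounting a + ((pr a b).card : ℝ) := by exact_mod_cast e3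
    linarith

theorem tendsto_TT : Filter.Tendsto (fun y : ℕ => TT y) Filter.atTop Filter.atTop := by
  have h1 : Filter.Tendsto (fun y : ℕ => Real.log (y : ℝ)) Filter.atTop Filter.atTop :=
    Real.tendsto_log_atTop.comp tendsto_natCast_atTop_atTop
  refine Filter.tendsto_atTop_mono' _ ?_ h1
  filter_upwards [h1.eventually_ge_atTop 1] with y hy
  unfold TT
  have h2 : 0 ≤ Real.log (Real.log y) := Real.log_nonneg hy
  have h3 : 1 ≤ Real.exp ((Real.log (Real.log y)) ^ (1 / 4 : ℝ)) := by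
    apply Real.one_le_exp
    positivity
  nlinarith

/-- `log log y / 4`-th power is at most `log log y + 1`, so `T(y) ≤ e (log y)^2` -/
theorem TT_le (y : ℝ) (hy : Real.exp 1 ≤ Real.log y) : TT y ≤ (Real.log y) ^ 2 := by
  unfold TT
  have h0 : 0 < Real.log y := (Real.exp_pos 1).trans_le hy
  have h1 : 1 ≤ Real.log (Real.log y) := by
    rw [← Real.log_exp 1]
    exact Real.log_le_log (Real.exp_pos 1) hy
  have h2 : (Real.log (Real.log y)) ^ (1 / 4 : ℝ) ≤ Real.log (Real.log y) := by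
    calc (Real.log (Real.log y)) ^ (1 / 4 : ℝ) ≤ (Real.log (Real.log y)) ^ (1 : ℝ) :=
          Real.rpow_le_rpow_of_exponent_le h1 (by norm_num)
      _ = _ := Real.rpow_one _
  have h3 : Real.exp ((Real.log (Real.log y)) ^ (1 / 4 : ℝ)) ≤ Real.log y := by
    calc _ ≤ Real.exp (Real.log (Real.log y)) := Real.exp_le_exp.2 h2
      _ = _ := Real.exp_log h0
  nlinarith

theorem tendsto_PP : Filter.Tendsto PP Filter.atTop Filter.atTop := by
  have hl : Filter.Tendsto (fun y : ℕ => Real.log (y : ℝ)) Filter.atTop Filter.atTop :=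
    Real.tendsto_log_atTop.comp tendsto_natCast_atTop_atTop
  have h1 : Filter.Tendsto (fun y : ℕ => (y : ℝ) / (Real.log y) ^ 2) Filter.atTop Filter.atTop := by
    have h0 := (Real.isLittleO_pow_log_id_atTop (n := 3)).bound (c := 1) one_pos
    have h2 : ∀ᶠ y : ℕ in Filter.atTop, (Real.log (y : ℝ)) ^ 3 ≤ y := by
      filter_upwards [tendsto_natCast_atTop_atTop.eventually h0] with y hy
      simp only [id, one_mul, Real.norm_eq_abs] at hy
      calc _ ≤ |(Real.log (y : ℝ)) ^ 3| := le_abs_self _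
        _ ≤ |(y : ℝ)| := hy
        _ = y := abs_of_nonneg (Nat.cast_nonneg _)
    refine Filter.tendsto_atTop_mono' _ ?_ hl
    filter_upwards [h2, hl.eventually_ge_atTop 1] with y hy hy1
    rw [le_div_iff₀ (by positivity)]
    calc _ = (Real.log (y : ℝ)) ^ 3 := by ring
      _ ≤ y := hy
  have h3 : Filter.Tendsto (fun y : ℕ => (y : ℝ) / TT y) Filter.atTop Filter.atTop := by
    refine Filter.tendsto_atTop_mono' _ ?_ h1
    filter_upwards [hl.eventually_ge_atTop (Real.exp 1), tendsto_TT.eventually_ge_atTop 1] with y hy hT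
    have := TT_le y hy
    gcongr
  exact tendsto_nat_floor_atTop.comp h3

/-- Chebyshev: `π(y) + C y / (log y)^2 ≤ Q(y)` for large `y` -/
theorem QQ_ge (C : ℝ) : ∀ᶠ y : ℕ in Filter.atTop,
    (Nat.primeCounting y : ℝ) + C * y / (Real.log y) ^ 2 ≤ QQ y := by
  have hl : Filter.Tendsto (fun y : ℕ => Real.log (y : ℝ)) Filter.atTop Filter.atTop :=
    Real.tendsto_log_atTop.comp tendsto_natCast_atTop_atTop
  have h0 := (isLittleO_log_rpow_atTop (r := 1 / 2) (by norm_num)).bound (c := 1) one_pos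
  have h2 : ∀ᶠ y : ℕ in Filter.atTop, Real.log (y : ℝ) ≤ Real.sqrt y := by
    filter_upwards [tendsto_natCast_atTop_atTop.eventually h0] with y hy
    rw [← Real.sqrt_eq_rpow] at hy
    simp only [one_mul, Real.norm_eq_abs] at hy
    calc _ ≤ |Real.log (y : ℝ)| := le_abs_self _
      _ ≤ |Real.sqrt (y : ℝ)| := hy
      _ = _ := abs_of_nonneg (Real.sqrt_nonneg _)
  filter_upwards [hl.eventually_ge_atTop (max 1 C), Filter.eventually_ge_atTop 2, h2] with y hy hy2 h3
  have hL : 0 < Real.log (y : ℝ) := lt_of_lt_of_le one_pos ((le_max_left _ _).trans hy)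
  have hC : C ≤ Real.log (y : ℝ) := (le_max_right _ _).trans hy
  have hL1 : 1 ≤ Real.log (y : ℝ) := (le_max_left _ _).trans hy
  have hy1 : (1 : ℝ) < y := by exact_mod_cast (by omega : 1 < y)
  have hch := Chebyshev.pi_le_log4_mul_div hy1
  rw [Nat.floor_natCast] at hch
  have h4 : Real.log 4 ≤ 1.4 := by
    have : Real.log 4 = 2 * Real.log 2 := by
      rw [show (4 : ℝ) = 2 ^ 2 by norm_num, Real.log_pow]; norm_num
    rw [this]
    have := Real.log_two_lt_d9
    linarith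
  have h5 : Real.log (Real.sqrt y) = Real.log y / 2 := Real.log_sqrt (by positivity)
  rw [h5] at hch
  have h6 : Real.sqrt y ≤ y / Real.log y := by
    rw [le_div_iff₀ hL]
    calc Real.sqrt y * Real.log y ≤ Real.sqrt y * Real.sqrt y := by gcongr
      _ = y := Real.mul_self_sqrt (by positivity)
  have h7 : Real.log 4 * y / (Real.log y / 2) ≤ 2.8 * (y / Real.log y) := by
    rw [show Real.log 4 * y / (Real.log y / 2) = 2 * Real.log 4 * (y / Real.log y) by
      field_simp]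
    gcongr
    linarith
  have h8 : C * y / (Real.log y) ^ 2 ≤ y / Real.log y := by
    rw [div_le_div_iff₀ (by positivity) hL]
    have : 0 ≤ (y : ℝ) * Real.log y := by positivity
    nlinarith
  have h9 : 1 ≤ y / Real.log y := by
    rw [le_div_iff₀ hL]
    have := Real.add_one_le_exp (Real.log y - 1)
    have e : Real.log y ≤ y := by
      have := Real.log_le_sub_one_of_pos (show (0 : ℝ) < y by positivity)
      linarith
    linarith
  have h10 : 8 * (y : ℝ) / Real.log y < QQ y + 1 := Nat.lt_floor_add_one _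
  have h11 : 8 * (y : ℝ) / Real.log y = 8 * (y / Real.log y) := by ring
  linarith

/-- the numbers `m r`, `m` `w`-smooth, `m ≤ M`, `r` prime, `P < r ≤ y/m` -/
noncomputable def NN (w M P y : ℕ) : Finset ℕ :=
  ((Sm w M).sigma (fun m => pr P (y / m))).image (fun x => x.1 * x.2)

theorem mem_NN {w M P y n : ℕ} : n ∈ NN w M P y ↔
    ∃ m r, m ∈ Sm w M ∧ r ∈ pr P (y / m) ∧ m * r = n := by
  simp only [NN, Finset.mem_image, Finset.mem_sigma, Sigma.exists]
  constructor
  · rintro ⟨a, b, ⟨h1, h2⟩, h3⟩; exact ⟨a, b, h1, h2, h3⟩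
  · rintro ⟨a, b, h1, h2, h3⟩; exact ⟨a, b, ⟨h1, h2⟩, h3⟩

theorem NN_inj {w M P y : ℕ} (hw : w ≤ P) :
    Set.InjOn (fun x : (_ : ℕ) × ℕ => x.1 * x.2)
      ((Sm w M).sigma (fun m => pr P (y / m)) : Finset ((_ : ℕ) × ℕ)) := by
  rintro ⟨m, r⟩ h1 ⟨m', r'⟩ h2 h3
  simp only [Finset.coe_sigma, Set.mem_sigma_iff, Finset.mem_coe, mem_Sm, mem_pr] at h1 h2 h3
  obtain ⟨⟨⟨hm1, -⟩, hm2⟩, ⟨hr1, -⟩, hr2⟩ := h1
  obtain ⟨⟨⟨hm1', -⟩, hm2'⟩, ⟨hr1', -⟩, hr2'⟩ := h2
  have e : r = r' := by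
    have h4 : r ∣ m' * r' := h3 ▸ Dvd.intro_left m rfl
    rcases (Nat.Prime.dvd_mul hr2).1 h4 with h5 | h5
    · have := hm2' r hr2 h5; omega
    · exact (Nat.prime_dvd_prime_iff_eq hr2 hr2').1 h5
  subst e
  have := Nat.eq_of_mul_eq_mul_right hr2.pos h3
  subst this
  rfl

theorem fw_mul_prime {w m r : ℕ} (hr : r.Prime) (hwr : w < r) : fw w (m * r) = fw w m := by
  unfold fw
  congr 1
  apply Finset.filter_congr
  intro p hp
  rw [mem_pr] at hp
  have : p ∣ m * r ↔ p ∣ m := by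
    constructor
    · intro h
      rcases (Nat.Prime.dvd_mul hp.2).1 h with h | h
      · exact h
      · have := (Nat.prime_dvd_prime_iff_eq hp.2 hr).1 h
        omega
    · exact fun h => h.mul_right r
  rw [this]

theorem sum_NN {w M P y : ℕ} (hw : w ≤ P) :
    ∑ m ∈ Sm w M, fw w m * ((Nat.primeCounting (y / m) : ℝ) - Nat.primeCounting P) ≤
      ∑ n ∈ NN w M P y, fw w n := by
  rw [NN, Finset.sum_image (NN_inj hw), Finset.sum_sigma]
  refine Finset.sum_le_sum fun m _ => ?_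
  have h1 : ∑ r ∈ pr P (y / m), fw w (m * r) = fw w m * ((pr P (y / m)).card : ℝ) := by
    rw [Finset.sum_congr rfl (fun r hr => ?_), Finset.sum_const, nsmul_eq_mul, mul_comm]
    rw [mem_pr] at hr
    exact fw_mul_prime hr.2 (by omega)
  simp only
  rw [h1]
  exact mul_le_mul_of_nonneg_left (card_pr_ge _ _) (fw_nonneg w m)

theorem NN_bd {w M P y n : ℕ} (h : n ∈ NN w M P y) :
    n ∈ (Finset.Icc 1 y) ∧ ∀ p ∈ pr w P, ¬ p ∣ n := by
  rw [mem_NN] at h
  obtain ⟨m, r, h1, h2, rfl⟩ := h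
  rw [mem_Sm] at h1
  rw [mem_pr] at h2
  refine ⟨?_, ?_⟩
  · rw [Finset.mem_Icc]
    refine ⟨Nat.mul_pos h1.1.1 h2.2.pos, ?_⟩
    calc m * r ≤ m * (y / m) := Nat.mul_le_mul_left _ h2.1.2
      _ ≤ y := Nat.mul_div_le _ _
  · intro p hp hpn
    rw [mem_pr] at hp
    rcases (Nat.Prime.dvd_mul hp.2).1 hpn with h | h
    · have := h1.2 p hp.2 h; omega
    · have := (Nat.prime_dvd_prime_iff_eq hp.2 h2.2).1 h; omega

/-- pigeonhole: a set with fewer than `p` elements misses a class mod `p` -/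
theorem misses {A : Finset ℕ} {p : ℕ} (hp : A.card < p) : ∃ c : ℕ, ∀ a ∈ A, ¬ a ≡ c [MOD p] := by
  by_contra hcon
  push Not at hcon
  have h1 : Finset.range p ⊆ A.image (· % p) := by
    intro c hc
    obtain ⟨a, ha, hac⟩ := hcon c
    rw [Finset.mem_image]
    refine ⟨a, ha, ?_⟩
    rw [hac]
    exact Nat.mod_eq_of_lt (Finset.mem_range.1 hc)
  have h2 := Finset.card_le_card h1
  have h3 : (A.image (· % p)).card ≤ A.card := Finset.card_image_le
  rw [Finset.card_range] at h2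
  omega

theorem card_diff_le (S : Finset ℕ) (Q : Finset ℕ) (c : ℕ → ℕ) :
    (S.card : ℝ) - ∑ q ∈ Q, ((S.filter (fun n => n ≡ c q [MOD q])).card : ℝ) ≤
      ((S.filter (fun n => ∀ q ∈ Q, ¬ n ≡ c q [MOD q])).card : ℝ) := by
  classical
  have h1 : S ⊆ (S.filter (fun n => ∀ q ∈ Q, ¬ n ≡ c q [MOD q])) ∪
      Q.biUnion (fun q => S.filter (fun n => n ≡ c q [MOD q])) := by
    intro n hn
    rw [Finset.mem_union, Finset.mem_filter, Finset.mem_biUnion]
    by_cases h : ∀ q ∈ Q, ¬ n ≡ c q [MOD q]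
    · exact Or.inl ⟨hn, h⟩
    · push Not at h
      obtain ⟨q, hq, hnq⟩ := h
      exact Or.inr ⟨q, hq, Finset.mem_filter.2 ⟨hn, hnq⟩⟩
  have h2 := (Finset.card_le_card h1).trans (Finset.card_union_le _ _)
  have h3 : (Q.biUnion (fun q => S.filter (fun n => n ≡ c q [MOD q]))).card ≤
      ∑ q ∈ Q, (S.filter (fun n => n ≡ c q [MOD q])).card := Finset.card_biUnion_le
  have h4 : (S.card : ℝ) ≤ ((S.filter (fun n => ∀ q ∈ Q, ¬ n ≡ c q [MOD q])).card : ℝ) +
      ∑ q ∈ Q, ((S.filter (fun n => n ≡ c q [MOD q])).card : ℝ) := by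
    exact_mod_cast h2.trans (Nat.add_le_add_left h3 _)
  linarith

/-- **Theorem.** dense admissible sets -/
theorem dense_admissible' (C : ℝ) (Y : ℕ) : ∃ y : ℕ, Y ≤ y ∧ ∃ A : Finset ℕ, A ⊆ Finset.Icc 1 y ∧
    Adm A ∧ (Nat.primeCounting y : ℝ) + C * y / (Real.log y) ^ 2 ≤ A.card := by
  classical
  obtain ⟨w, hw, hS⟩ := many_survivors (C + 1)
  obtain ⟨y0, hcost⟩ := cost_of w (cost_one w) 1 one_pos
  obtain ⟨y1, h1⟩ := Filter.eventually_atTop.1 (tendsto_PP.eventually_ge_atTop w)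
  obtain ⟨y2, h2⟩ := Filter.eventually_atTop.1 (QQ_ge C)
  obtain ⟨y, hy, hmain⟩ := hS (max Y (max y0 (max y1 y2)))
  have hyY : Y ≤ y := (le_max_left _ _).trans hy
  have hy0 : y0 ≤ y := (le_max_left _ _).trans ((le_max_right _ _).trans hy)
  have hy1 : y1 ≤ y := (le_max_left _ _).trans ((le_max_right _ _).trans ((le_max_right _ _).trans hy))
  have hy2 : y2 ≤ y := (le_max_right _ _).trans ((le_max_right _ _).trans ((le_max_right _ _).trans hy))
  have hwP := h1 y hy1
  have hQ := h2 y hy2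
  obtain ⟨c, hc⟩ := hcost y hy0
  refine ⟨y, hyY, ?_⟩
  set N := NN w (MM y) (PP y) y with hN
  obtain ⟨a, ha, haN⟩ := exists_classes N w
  set S := N.filter (fun n => ∀ p ∈ pr 0 w, ¬ n ≡ a p [MOD p]) with hSdef
  set Q := pr (PP y) (QQ y) with hQdef
  set A0 := S.filter (fun n => ∀ q ∈ Q, ¬ n ≡ c q [MOD q]) with hA0
  have hScard : (Nat.primeCounting y : ℝ) + (C + 1) * y / (Real.log y) ^ 2 ≤ S.card :=
    hmain.trans ((sum_NN hwP).trans haN)
  have hcost' : ∑ q ∈ Q, ((S.filter (fun n => n ≡ c q [MOD q])).card : ℝ) ≤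
      1 * y / (Real.log y) ^ 2 := by
    refine le_trans ?_ hc
    refine Finset.sum_le_sum fun q _ => ?_
    have : S.filter (fun n => n ≡ c q [MOD q]) ⊆ (Finset.Icc 1 y).filter (fun n => n ≡ c q [MOD q] ∧
        ∀ p ∈ pr w (PP y), ¬ p ∣ n) := by
      intro n hn
      rw [Finset.mem_filter, hSdef, Finset.mem_filter] at hn
      have hb := NN_bd hn.1.1
      exact Finset.mem_filter.2 ⟨hb.1, hn.2, hb.2⟩
    exact_mod_cast Finset.card_le_card this
  have hA0card : (Nat.primeCounting y : ℝ) + C * y / (Real.log y) ^ 2 ≤ A0.card := by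
    have h3 := card_diff_le S Q c
    have e : (C + 1) * (y : ℝ) / (Real.log y) ^ 2 = C * y / (Real.log y) ^ 2 +
        1 * y / (Real.log y) ^ 2 := by ring
    rw [e] at hScard
    linarith
  obtain ⟨A, hAA, hAcard⟩ := Finset.exists_subset_card_eq (s := A0) (n := min A0.card (QQ y))
    (min_le_left _ _)
  have hAN : A ⊆ N := hAA.trans ((Finset.filter_subset _ _).trans (Finset.filter_subset _ _))
  refine ⟨A, fun n hn => (NN_bd (hAN hn)).1, ?_, ?_⟩
  · intro p hp
    by_cases hp1 : p ≤ w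
    · refine ⟨a p, fun n hn => ?_⟩
      have h4 := (Finset.mem_filter.1 (Finset.mem_filter.1 (hAA hn)).1).2
      exact h4 p (mem_pr.2 ⟨⟨hp.pos, hp1⟩, hp⟩)
    · by_cases hp2 : p ≤ PP y
      · refine ⟨0, fun n hn hn0 => ?_⟩
        have h4 := (NN_bd (hAN hn)).2 p (mem_pr.2 ⟨⟨by omega, hp2⟩, hp⟩)
        exact h4 ((Nat.modEq_zero_iff_dvd).1 hn0)
      · by_cases hp3 : p ≤ QQ y
        · refine ⟨c p, fun n hn => ?_⟩
          have h4 := (Finset.mem_filter.1 (hAA hn)).2
          exact h4 p (mem_pr.2 ⟨⟨by omega, hp3⟩, hp⟩)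
        · apply misses
          rw [hAcard]
          exact lt_of_le_of_lt (min_le_right _ _) (by omega)
  · rw [hAcard, Nat.cast_min]
    exact le_min hA0card hQ

theorem PP_pos_of {y : ℕ} (h : 1 ≤ PP y) : TT y ≤ y := by
  unfold PP at h
  rw [Nat.one_le_floor_iff] at h
  by_contra h2
  push Not at h2
  have h3 : 0 ≤ (y : ℝ) := Nat.cast_nonneg _
  have h4 : 0 < TT y := lt_of_le_of_lt h3 h2
  rw [le_div_iff₀ h4] at h
  linarith

end Pool.Agent.H85.Rho
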