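import Mathlib

/-! Definitions for the project RHO (MP_5046ca_nt): dense admissible sets. -/

open Finset Real

namespace Pool.Agent.H85.Rho

noncomputable section

/-- a finite set of integers is admissible if it misses a residue class modulo every prime -/
def Adm (A : Finset ℕ) : Prop :=
  ∀ p : ℕ, p.Prime → ∃ c : ℕ, ∀ a ∈ A, ¬ a ≡ c [MOD p]

/-- primes in `(a,b]` -/
def pr (a b : ℕ) : Finset ℕ := (Finset.Ioc a b).filter Nat.Prime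

/-- `w`-smooth numbers in `[1,x]` -/
def Sm (w x : ℕ) : Finset ℕ := (Finset.Icc 1 x).filter (fun m => ∀ p ∈ m.primeFactors, p ≤ w)

/-- the weight `∏_{p ≤ w, p ∤ m} (p-2)/(p-1)` -/
def fw (w m : ℕ) : ℝ := ∏ p ∈ (pr 0 w).filter (fun p => ¬ p ∣ m), (((p : ℝ) - 2) / (p - 1))

/-- `T(y) = log y * exp((log log y)^(1/4))` -/
def TT (y : ℝ) : ℝ := Real.log y * Real.exp ((Real.log (Real.log y)) ^ (1 / 4 : ℝ))

/-- `⌊T(y)⌋` -/
def MM (y : ℕ) : ℕ := ⌊TT y⌋₊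

/-- `⌊y / T(y)⌋` -/
def PP (y : ℕ) : ℕ := ⌊(y : ℝ) / TT y⌋₊

/-- `⌊8 y / log y⌋` -/
def QQ (y : ℕ) : ℕ := ⌊8 * (y : ℝ) / Real.log y⌋₊

theorem mem_pr {a b p : ℕ} : p ∈ pr a b ↔ (a < p ∧ p ≤ b) ∧ p.Prime := by
  simp [pr]

theorem mem_Sm {w x m : ℕ} : m ∈ Sm w x ↔ (1 ≤ m ∧ m ≤ x) ∧ ∀ p, p.Prime → p ∣ m → p ≤ w := by
  simp only [Sm, Finset.mem_filter, Finset.mem_Icc, Nat.mem_primeFactors]
  constructor
  · rintro ⟨h, h2⟩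
    exact ⟨h, fun p hp hpm => h2 p ⟨hp, hpm, by omega⟩⟩
  · rintro ⟨h, h2⟩
    exact ⟨h, fun p hp => h2 p hp.1 hp.2.1⟩

end

end Pool.Agent.H85.Rho
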