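import Pool.Agent.H85.Rho.Asm

/-! Module I: consequences for `π(y) - ρ(y)` -/

open Finset Real

namespace Pool.Agent.H85.Rho

theorem card_pr_eq {a b : ℕ} (h : a ≤ b) : Nat.primeCounting a + (pr a b).card = Nat.primeCounting b := by
  have e1 : ∀ n, Nat.primeCounting n = ((Finset.Ioc 0 n).filter Nat.Prime).card := by
    intro n
    rw [Nat.primeCounting, Nat.primeCounting', Nat.count_eq_card_filter_range]
    congr 1
    ext p
    simp only [Finset.mem_filter, Finset.mem_range, Finset.mem_Ioc]
    constructor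
    · rintro ⟨h1, h2⟩; exact ⟨⟨h2.pos, by omega⟩, h2⟩
    · rintro ⟨h1, h2⟩; exact ⟨by omega, h2⟩
  have e2 : (Finset.Ioc 0 b).filter Nat.Prime = (Finset.Ioc 0 a).filter Nat.Prime ∪ pr a b := by
    rw [pr, ← Finset.filter_union, Finset.Ioc_union_Ioc_eq_Ioc (Nat.zero_le _) h]
  have e3 : Disjoint ((Finset.Ioc 0 a).filter Nat.Prime) (pr a b) := by
    rw [Finset.disjoint_left]
    intro p h1 h2
    rw [Finset.mem_filter, Finset.mem_Ioc] at h1
    rw [mem_pr] at h2
    omega
  rw [e1, e1, e2, Finset.card_union_of_disjoint e3]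

theorem translate_card (A : Finset ℕ) (x y : ℕ) (hA : A ⊆ Finset.Icc 1 y) :
    Nat.primeCounting x + (A.filter (fun a => (x + a).Prime)).card ≤ Nat.primeCounting (x + y) := by
  rw [← card_pr_eq (Nat.le_add_right x y)]
  apply Nat.add_le_add_left
  apply Finset.card_le_card_of_injOn (fun a => x + a)
  · intro a ha
    simp only [Finset.coe_filter, Set.mem_ofPred_eq] at ha
    have h1 := Finset.mem_Icc.1 (hA ha.1)
    simp only [Finset.mem_coe, mem_pr]
    exact ⟨⟨by omega, by omega⟩, ha.2⟩
  · intro a _ b _ hab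
    simpa using hab

/-- the smallest prime-counting facts used below -/
theorem pi_facts : ∀ᶠ y : ℕ in Filter.atTop,
    (Nat.primeCounting y : ℝ) ≤ 4 * (y / Real.log y) ∧ Real.sqrt y ≤ Nat.primeCounting y := by
  have hl : Filter.Tendsto (fun y : ℕ => Real.log (y : ℝ)) Filter.atTop Filter.atTop :=
    Real.tendsto_log_atTop.comp tendsto_natCast_atTop_atTop
  have h0 := (isLittleO_log_rpow_atTop (r := 1 / 2) (by norm_num)).bound (c := 1 / 4) (by norm_num)
  have h2 : ∀ᶠ y : ℕ in Filter.atTop, Real.log (y : ℝ) ≤ 1 / 4 * Real.sqrt y := by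
    filter_upwards [tendsto_natCast_atTop_atTop.eventually h0] with y hy
    rw [← Real.sqrt_eq_rpow] at hy
    simp only [Real.norm_eq_abs] at hy
    calc _ ≤ |Real.log (y : ℝ)| := le_abs_self _
      _ ≤ 1 / 4 * |Real.sqrt (y : ℝ)| := hy
      _ = _ := by rw [abs_of_nonneg (Real.sqrt_nonneg _)]
  filter_upwards [hl.eventually_ge_atTop 1, Filter.eventually_ge_atTop 100, h2] with y hL1 hy2 h3
  have hL : 0 < Real.log (y : ℝ) := by linarith
  have hy100 : (100 : ℝ) ≤ y := by exact_mod_cast hy2
  have hy1 : (1 : ℝ) < y := by linarith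
  have hss : Real.sqrt y * Real.sqrt y = y := Real.mul_self_sqrt (by positivity)
  have hs0 : 10 ≤ Real.sqrt y := by
    rw [show (10 : ℝ) = Real.sqrt 100 by
      rw [show (100 : ℝ) = 10 ^ 2 by norm_num]; rw [Real.sqrt_sq (by norm_num)]]
    exact Real.sqrt_le_sqrt hy100
  constructor
  · have hch := Chebyshev.pi_le_log4_mul_div hy1
    rw [Nat.floor_natCast] at hch
    have h4 : Real.log 4 ≤ 1.4 := by
      have : Real.log 4 = 2 * Real.log 2 := by
        rw [show (4 : ℝ) = 2 ^ 2 by norm_num, Real.log_pow]; norm_num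
      rw [this]
      have := Real.log_two_lt_d9
      linarith
    have h5 : Real.log (Real.sqrt y) = Real.log y / 2 := Real.log_sqrt (by positivity)
    rw [h5] at hch
    have h6 : Real.sqrt y ≤ y / Real.log y := by
      rw [le_div_iff₀ hL]
      nlinarith
    have h7 : Real.log 4 * y / (Real.log y / 2) ≤ 2.8 * (y / Real.log y) := by
      rw [show Real.log 4 * y / (Real.log y / 2) = 2 * Real.log 4 * (y / Real.log y) by
        field_simp]
      gcongr
      linarith
    have h8 : 0 ≤ y / Real.log y := by positivity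
    linarith
  · have hpi := Chebyshev.pi_ge y
    refine le_trans ?_ hpi
    rw [le_div_iff₀ hL]
    have h4 : 0.69 ≤ Real.log 2 := by
      have := Real.log_two_gt_d9
      linarith
    have h5 : Real.log ((y : ℝ) + 1) ≤ Real.log y + 1 := by
      have : Real.log ((y : ℝ) + 1) ≤ Real.log (Real.exp 1 * y) := by
        apply Real.log_le_log (by linarith)
        have := Real.add_one_le_exp (1 : ℝ)
        nlinarith
      rw [Real.log_mul (by positivity) (by positivity), Real.log_exp] at this
      linarith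
    nlinarith

/-- if `ρ(y) ≤ π(y) + C₀ y/(log y)²` for all large `y`, then prime tuples fails strongly -/
theorem tuples_fail (C0 : ℝ) (h : ∃ Y : ℕ, ∀ y : ℕ, Y ≤ y → ∃ X : ℕ, ∀ x : ℕ, X ≤ x →
      (Nat.primeCounting (x + y) : ℝ) ≤ Nat.primeCounting x + Nat.primeCounting y +
        C0 * y / (Real.log y) ^ 2) (C : ℝ) (K : ℕ) :
    ∃ A : Finset ℕ, K ≤ A.card ∧ Adm A ∧ ∃ X : ℕ, ∀ x : ℕ, X ≤ x →
      ((A.filter (fun a => (x + a).Prime)).card : ℝ) < A.card - C * A.card / Real.log A.card := by
  obtain ⟨Y, hY⟩ := h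
  obtain ⟨y1, h1⟩ := Filter.eventually_atTop.1 pi_facts
  have hl : Filter.Tendsto (fun y : ℕ => Real.log (y : ℝ)) Filter.atTop Filter.atTop :=
    Real.tendsto_log_atTop.comp tendsto_natCast_atTop_atTop
  set C' := |C0| + 10 * |C| + 1 with hC'
  have hC'0 : 0 < C' := by positivity
  obtain ⟨y2, h2⟩ := Filter.eventually_atTop.1 (hl.eventually_ge_atTop (C' + 2 * |C| + 1))
  obtain ⟨y, hy, A, hA, hAdm, hAc⟩ := dense_admissible' C'
    (max Y (max y1 (max y2 (K ^ 2 + 2))))
  have hyY : Y ≤ y := (le_max_left _ _).trans hy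
  have hy1 : y1 ≤ y := (le_max_left _ _).trans ((le_max_right _ _).trans hy)
  have hy2 : y2 ≤ y := (le_max_left _ _).trans ((le_max_right _ _).trans ((le_max_right _ _).trans hy))
  have hyK : K ^ 2 + 2 ≤ y :=
    (le_max_right _ _).trans ((le_max_right _ _).trans ((le_max_right _ _).trans hy))
  obtain ⟨hpi1, hpi2⟩ := h1 y hy1
  have hL := h2 y hy2
  set L := Real.log (y : ℝ) with hLdef
  have hCabs : 0 ≤ |C| := abs_nonneg C
  have hL0 : 0 < L := by linarith
  have hy0 : (0 : ℝ) < y := by
    have : 0 < y := by omega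
    exact_mod_cast this
  have hs1 : 1 ≤ Real.sqrt y := by
    rw [show (1 : ℝ) = Real.sqrt 1 by simp]
    apply Real.sqrt_le_sqrt
    have : 1 ≤ y := by omega
    exact_mod_cast this
  have hyL : 0 ≤ C' * y / L ^ 2 := by positivity
  have hA1 : Real.sqrt y ≤ A.card := by linarith
  have hlogA : L / 2 ≤ Real.log A.card := by
    rw [hLdef, ← Real.log_sqrt hy0.le]
    exact Real.log_le_log (Real.sqrt_pos.2 hy0) hA1
  have hlogA0 : 0 < Real.log A.card := by linarith
  refine ⟨A, ?_, hAdm, ?_⟩
  · have h3 : (K : ℝ) ≤ Real.sqrt y := by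
      apply Real.le_sqrt_of_sq_le
      exact_mod_cast (by omega : K ^ 2 ≤ y)
    exact_mod_cast h3.trans hA1
  · obtain ⟨X, hX⟩ := hY y hyY
    refine ⟨X, fun x hx => ?_⟩
    have h4 := hX x hx
    have h5 := translate_card A x y hA
    have h5' : (Nat.primeCounting x : ℝ) + ((A.filter (fun a => (x + a).Prime)).card : ℝ) ≤
        Nat.primeCounting (x + y) := by exact_mod_cast h5
    have h6 : ((A.filter (fun a => (x + a).Prime)).card : ℝ) ≤
        Nat.primeCounting y + C0 * y / L ^ 2 := by linarith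
    refine lt_of_le_of_lt h6 ?_
    -- lower bound for the right side
    have hk0 : (0 : ℝ) < A.card := by linarith
    have h7 : C * A.card / Real.log A.card ≤ 2 * |C| / L * A.card := by
      have h8 : C * A.card / Real.log A.card ≤ |C| * A.card / Real.log A.card := by
        gcongr
        exact le_abs_self C
      have h9 : |C| * A.card / Real.log A.card ≤ |C| * A.card / (L / 2) := by gcongr
      calc _ ≤ _ := h8
        _ ≤ _ := h9
        _ = _ := by field_simp
    have h10 : 0 ≤ 1 - 2 * |C| / L := by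
      rw [sub_nonneg, div_le_one hL0]
      linarith
    have h11 : (Nat.primeCounting y + C' * y / L ^ 2) * (1 - 2 * |C| / L) ≤
        A.card * (1 - 2 * |C| / L) := by gcongr
    have h12 : C' * y / L ^ 2 ≤ y / L := by
      rw [div_le_div_iff₀ (by positivity) hL0]
      have : C' ≤ L := by linarith
      have h13 : 0 ≤ (y : ℝ) * L := by positivity
      nlinarith
    have h13 : (Nat.primeCounting y + C' * y / L ^ 2) * (2 * |C| / L) ≤ 10 * |C| * y / L ^ 2 := by
      have h14 : (Nat.primeCounting y : ℝ) + C' * y / L ^ 2 ≤ 5 * (y / L) := by linarith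
      calc _ ≤ 5 * (y / L) * (2 * |C| / L) := by gcongr
        _ = _ := by ring
    have h14 : C0 * y / L ^ 2 ≤ |C0| * y / L ^ 2 := by
      gcongr
      exact le_abs_self C0
    have h15 : C' * y / L ^ 2 = |C0| * y / L ^ 2 + 10 * |C| * y / L ^ 2 + y / L ^ 2 := by
      rw [hC']; ring
    have h16 : 0 < y / L ^ 2 := by positivity
    have h17 : (A.card : ℝ) * (1 - 2 * |C| / L) = A.card - 2 * |C| / L * A.card := by ring
    have h18 : (Nat.primeCounting y + C' * y / L ^ 2) * (1 - 2 * |C| / L) =
        (Nat.primeCounting y + C' * y / L ^ 2) -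
          (Nat.primeCounting y + C' * y / L ^ 2) * (2 * |C| / L) := by ring
    linarith

end Pool.Agent.H85.Rho
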