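import Pool.Agent.H85.Rho.Defs

/-! Module C: the descent lemma -/

open Finset Real

namespace Pool.Agent.H85.Rho

theorem log_one_sub_ge {x : ℝ} (h0 : 0 ≤ x) (h1 : x ≤ 1 / 2) : -(2 * x) ≤ Real.log (1 - x) := by
  have hpos : 0 < 1 - x := by linarith
  have h := Real.one_sub_inv_le_log_of_pos hpos
  have h2 : -(2 * x) ≤ 1 - (1 - x)⁻¹ := by
    rw [inv_eq_one_div, le_sub_iff_add_le, ← le_sub_iff_add_le', div_le_iff₀ hpos]
    nlinarith
  linarith

theorem descent (g : ℝ → ℝ) (B : ℝ) (hg0 : ∀ t, 1 ≤ t → 0 ≤ g t) (hgB : ∀ t, 1 ≤ t → g t ≤ B)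
    (ε : ℝ) (hε : 0 < ε) (Y : ℝ) :
    ∃ y : ℝ, Y ≤ y ∧ 3 ≤ y ∧ ∀ m : ℕ, 1 ≤ m → (m : ℝ) ≤ Real.sqrt y →
      g y - ε * Real.log m / Real.log y ≤ g (y / m) := by
  by_contra hcon
  push Not at hcon
  set Y0 := max Y 9 with hY0
  have hY9 : 9 ≤ Y0 := le_max_right _ _
  have hlog9 : ∀ y : ℝ, 9 ≤ y → 1 < Real.log y := by
    intro y hy
    rw [Real.lt_log_iff_exp_lt (by linarith)]
    have := Real.exp_one_lt_d9
    linarith
  have key : ∀ n : ℕ, ∀ y : ℝ, Y0 ≤ y → y ≤ 2 ^ n * Y0 →
      ε / 2 * (Real.log (Real.log y) - Real.log (Real.log Y0)) ≤ g y := by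
    intro n
    induction n with
    | zero =>
      intro y h1 h2
      have : y = Y0 := by
        apply le_antisymm _ h1
        simpa using h2
      rw [this, sub_self, mul_zero]
      exact hg0 _ (by linarith)
    | succ n ih =>
      intro y h1 h2
      obtain ⟨m, hm1, hm2, hm3⟩ := hcon y ((le_max_left _ _).trans h1) (by linarith)
      have hy9 : 9 ≤ y := hY9.trans h1
      have hL := hlog9 y hy9
      have hL0 : 0 < Real.log y := by linarith
      have hm_ne : m ≠ 1 := by
        rintro rfl
        simp at hm3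
      have hm2' : 2 ≤ m := by omega
      have hmR : (2 : ℝ) ≤ m := by exact_mod_cast hm2'
      have hmpos : (0 : ℝ) < m := by linarith
      have hsq3 : 3 ≤ Real.sqrt y := by
        rw [show (3 : ℝ) = Real.sqrt 9 by
          rw [show (9 : ℝ) = 3 ^ 2 by norm_num]; rw [Real.sqrt_sq (by norm_num)]]
        exact Real.sqrt_le_sqrt hy9
      have hquot : Real.sqrt y ≤ y / m := by
        rw [le_div_iff₀ hmpos]
        calc Real.sqrt y * m ≤ Real.sqrt y * Real.sqrt y := by gcongr
          _ = y := Real.mul_self_sqrt (by linarith)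
      have hxle : Real.log m / Real.log y ≤ 1 / 2 := by
        rw [div_le_iff₀ hL0]
        calc Real.log m ≤ Real.log (Real.sqrt y) := Real.log_le_log hmpos hm2
          _ = 1 / 2 * Real.log y := by rw [Real.log_sqrt (by linarith)]; ring
      have hx0 : 0 ≤ Real.log m / Real.log y :=
        div_nonneg (Real.log_nonneg (by linarith)) hL0.le
      have hlogq : Real.log (y / m) = Real.log y * (1 - Real.log m / Real.log y) := by
        rw [Real.log_div (by linarith) hmpos.ne']
        field_simp
      have hll : Real.log (Real.log y) - 2 * (Real.log m / Real.log y) ≤ Real.log (Real.log (y / m)) := by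
        rw [hlogq, Real.log_mul hL0.ne' (by linarith)]
        have := log_one_sub_ge hx0 hxle
        linarith
      have hstep : ε / 2 * (Real.log (Real.log (y / m)) - Real.log (Real.log Y0)) ≤ g (y / m) := by
        by_cases hc : Y0 ≤ y / m
        · apply ih _ hc
          rw [div_le_iff₀ hmpos]
          calc y ≤ 2 ^ (n + 1) * Y0 := h2
            _ = 2 ^ n * Y0 * 2 := by ring
            _ ≤ 2 ^ n * Y0 * m := by
              have : 0 ≤ 2 ^ n * Y0 := by positivity
              gcongr
        · push Not at hc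
          have h4 : Real.log (Real.log (y / m)) ≤ Real.log (Real.log Y0) := by
            apply Real.log_le_log
            · apply Real.log_pos
              linarith
            · apply Real.log_le_log _ hc.le
              linarith
          have h5 : 0 ≤ g (y / m) := hg0 _ (by linarith)
          have h6 : ε / 2 * (Real.log (Real.log (y / m)) - Real.log (Real.log Y0)) ≤ 0 :=
            mul_nonpos_of_nonneg_of_nonpos (by linarith) (by linarith)
          linarith
      have h7 : ε * Real.log m / Real.log y = ε * (Real.log m / Real.log y) := by ring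
      rw [h7] at hm3
      have h8 : ε / 2 * (Real.log (Real.log y) - 2 * (Real.log m / Real.log y)) ≤
          ε / 2 * Real.log (Real.log (y / m)) := by gcongr
      nlinarith
  have hB : 0 ≤ B := (hg0 1 le_rfl).trans (hgB 1 le_rfl)
  set y := Real.exp (Real.exp (Real.log (Real.log Y0) + 2 * (B + 1) / ε)) with hy
  have hY0L := hlog9 Y0 hY9
  have hyY : Y0 ≤ y := by
    rw [hy]
    calc Y0 = Real.exp (Real.log Y0) := (Real.exp_log (by linarith)).symm
      _ = Real.exp (Real.exp (Real.log (Real.log Y0))) := by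
        rw [Real.exp_log (show 0 < Real.log Y0 by linarith)]
      _ ≤ _ := by
        apply Real.exp_le_exp.2
        apply Real.exp_le_exp.2
        have : 0 ≤ 2 * (B + 1) / ε := by positivity
        linarith
  obtain ⟨n, hn⟩ := pow_unbounded_of_one_lt (y / Y0) (one_lt_two : (1 : ℝ) < 2)
  have h1 : y ≤ 2 ^ n * Y0 := by
    rw [div_lt_iff₀ (by linarith)] at hn
    exact hn.le
  have h2 := key n y hyY h1
  have h3 : Real.log (Real.log y) = Real.log (Real.log Y0) + 2 * (B + 1) / ε := by
    rw [hy, Real.log_exp, Real.log_exp]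
  rw [h3] at h2
  have h4 : ε / 2 * (Real.log (Real.log Y0) + 2 * (B + 1) / ε - Real.log (Real.log Y0)) = B + 1 := by
    field_simp
    ring
  rw [h4] at h2
  have h5 := hgB y (by linarith)
  linarith

end Pool.Agent.H85.Rho
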