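import Pool.Agent.H85.Rho.Defs

/-! Module G2, combinatorial core -/

open Finset Real

namespace Pool.Agent.H85.Rho

theorem cost_core {w z P y q X : ℕ} (_hq : q.Prime) (_hzq : z < q) (hzP : z ≤ P)
    (h : ℕ → ℕ) (hX : 2 ≤ X) (hXG : (∏ l ∈ pr w z, l) * X ≤ q) (hwz : w ≤ z)
    (hXP : ⌊(X : ℝ) ^ (1 / 8 : ℝ)⌋₊ ≤ P) (B : ℝ)
    (hB : ∀ G b : ℕ, (∀ l, l.Prime → z < l → ¬ l ∣ G) →
      (((Finset.range X).filter (fun t => ∀ l ∈ pr z ⌊(X : ℝ) ^ (1 / 8 : ℝ)⌋₊,
      ¬ l ∣ b + G * t)).card : ℝ) ≤ B) :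
    ∃ c : ℕ, (((Finset.Icc 1 y).filter (fun n => n ≡ c [MOD q] ∧
        ∀ p ∈ pr w P, ¬ p ∣ n)).card : ℝ) ≤
      (((Finset.range (y / q + 1)).filter (fun j => ∀ l ∈ pr w z,
      ¬ j ≡ h l [MOD l])).card : ℝ) * (B / X) := by
  classical
  set G := ∏ l ∈ pr w z, l with hG
  set J := y / q with hJ
  have hprime : ∀ l ∈ pr w z, l.Prime := fun l hl => (mem_pr.1 hl).2
  have hGpos : 0 < G := Finset.prod_pos fun l hl => (hprime l hl).pos
  have hGdvd : ∀ l ∈ pr w z, l ∣ G := fun l hl => Finset.dvd_prod_of_mem _ hl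
  -- CRT
  have hs : ∀ i ∈ pr w z, (id i : ℕ) ≠ 0 := fun i hi => (hprime i hi).ne_zero
  have pp : Set.Pairwise (pr w z : Set ℕ) (Function.onFun Nat.Coprime id) := by
    intro a ha b hb hab
    exact (Nat.coprime_primes (hprime a ha) (hprime b hb)).2 hab
  obtain ⟨b0, hb0⟩ := Nat.chineseRemainderOfFinset (fun l => l - (h l * q) % l) id (pr w z) hs pp
  set b := b0 % G with hb
  have hbl : ∀ l ∈ pr w z, l ∣ b + h l * q := by
    intro l hl
    have h1 := hb0 l hl
    simp only [id] at h1
    have hlpos := (hprime l hl).pos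
    have h2 : b ≡ b0 [MOD l] := (Nat.mod_modEq b0 G).of_dvd (hGdvd l hl)
    have h3 : b + h l * q ≡ (l - (h l * q) % l) + (h l * q) % l [MOD l] :=
      (h2.trans h1).add (Nat.mod_modEq _ _).symm
    have h4 : (l - (h l * q) % l) + (h l * q) % l = l :=
      Nat.sub_add_cancel (Nat.mod_lt _ hlpos).le
    rw [h4] at h3
    exact (Nat.modEq_zero_iff_dvd).1 (h3.trans (by simp [Nat.ModEq]))
  have hGz : ∀ l, l.Prime → z < l → ¬ l ∣ G := by
    intro l hl hzl hlG
    rw [hG, hl.prime.dvd_finsetProd_iff] at hlG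
    obtain ⟨p, hp, hlp⟩ := hlG
    have := (Nat.prime_dvd_prime_iff_eq hl (hprime p hp)).1 hlp
    have h2 := (mem_pr.1 hp).1.2
    omega
  set c : ℕ → ℕ := fun t => b + G * t with hc
  have hclt : ∀ t ∈ Finset.range X, c t < q := by
    intro t ht
    rw [Finset.mem_range] at ht
    have h1 : b < G := Nat.mod_lt _ hGpos
    calc c t = b + G * t := rfl
      _ < G + G * t := by omega
      _ = G * (t + 1) := by ring
      _ ≤ G * X := Nat.mul_le_mul_left _ (by omega)
      _ ≤ q := hXG
  -- number of survivors in a class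
  set N' : ℕ → ℕ := fun t => ((Finset.range (J + 1)).filter
    (fun j => ∀ p ∈ pr w P, ¬ p ∣ c t + j * q)).card with hN'
  have hN : ∀ t ∈ Finset.range X, ((Finset.Icc 1 y).filter (fun n => n ≡ c t [MOD q] ∧
      ∀ p ∈ pr w P, ¬ p ∣ n)).card ≤ N' t := by
    intro t ht
    apply Finset.card_le_card_of_injOn (fun n => n / q)
    · intro n hn
      simp only [Finset.coe_filter, Set.mem_ofPred_eq, Finset.mem_Icc] at hn
      simp only [Finset.coe_filter, Set.mem_ofPred_eq, Finset.mem_range]
      have h1 : n % q = c t := by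
        rw [hn.2.1]
        exact Nat.mod_eq_of_lt (hclt t ht)
      have h2 : c t + n / q * q = n := by
        rw [← h1, mul_comm]
        exact Nat.mod_add_div n q
      refine ⟨?_, ?_⟩
      · have : n / q ≤ y / q := Nat.div_le_div_right hn.1.2
        omega
      · rw [h2]; exact hn.2.2
    · intro n hn m hm hnm
      simp only [Finset.coe_filter, Set.mem_ofPred_eq, Finset.mem_Icc] at hn hm hnm
      have h1 : n % q = m % q := by rw [hn.2.1, hm.2.1]
      rw [← Nat.mod_add_div n q, ← Nat.mod_add_div m q, h1, hnm]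
  set U := (Finset.range (J + 1)).filter (fun j => ∀ l ∈ pr w z, ¬ j ≡ h l [MOD l]) with hU
  have hsum : (∑ t ∈ Finset.range X, (N' t : ℝ)) ≤ (U.card : ℝ) * B := by
    have e1 : ∀ t, (N' t : ℝ) = ∑ j ∈ Finset.range (J + 1),
        (if ∀ p ∈ pr w P, ¬ p ∣ c t + j * q then (1 : ℝ) else 0) := by
      intro t
      simp only [hN', Finset.card_filter]
      push_cast
      rfl
    simp only [e1]
    rw [Finset.sum_comm]
    have e2 : ∀ j ∈ Finset.range (J + 1), (∑ t ∈ Finset.range X,
        (if ∀ p ∈ pr w P, ¬ p ∣ c t + j * q then (1 : ℝ) else 0)) ≤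
        if j ∈ U then B else 0 := by
      intro j hj
      have e3 : (∑ t ∈ Finset.range X,
          (if ∀ p ∈ pr w P, ¬ p ∣ c t + j * q then (1 : ℝ) else 0)) =
          (((Finset.range X).filter (fun t => ∀ p ∈ pr w P, ¬ p ∣ c t + j * q)).card : ℝ) := by
        rw [Finset.card_filter]
        push_cast
        rfl
      rw [e3]
      split_ifs with hjU
      · refine le_trans ?_ (hB G (b + j * q) hGz)
        norm_cast
        apply Finset.card_le_card
        intro t ht
        rw [Finset.mem_filter] at ht ⊢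
        refine ⟨ht.1, fun l hl => ?_⟩
        rw [mem_pr] at hl
        have h1 := ht.2 l (mem_pr.2 ⟨⟨by omega, by omega⟩, hl.2⟩)
        have h2 : b + j * q + G * t = c t + j * q := by simp only [hc]; ring
        rw [h2]
        exact h1
      · have : (Finset.range X).filter (fun t => ∀ p ∈ pr w P, ¬ p ∣ c t + j * q) = ∅ := by
          rw [Finset.filter_eq_empty_iff]
          intro t ht hall
          rw [hU, Finset.mem_filter, not_and] at hjU
          have h1 := hjU hj
          push Not at h1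
          obtain ⟨l, hl, hjl⟩ := h1
          have hl' := mem_pr.1 hl
          refine hall l (mem_pr.2 ⟨⟨hl'.1.1, by omega⟩, hl'.2⟩) ?_
          have h3 : j * q ≡ h l * q [MOD l] := hjl.mul_right q
          have h4 : c t + j * q ≡ b + h l * q [MOD l] := by
            have h5 : c t ≡ b [MOD l] := by
              have : G * t ≡ 0 [MOD l] := (Nat.modEq_zero_iff_dvd).2 ((hGdvd l hl).mul_right t)
              exact (Nat.ModEq.refl b).add this
            exact h5.add h3
          exact (Nat.modEq_zero_iff_dvd).1 (h4.trans ((Nat.modEq_zero_iff_dvd).2 (hbl l hl)))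
        rw [this]
        simp
    refine (Finset.sum_le_sum e2).trans ?_
    rw [← Finset.sum_filter, Finset.sum_const, nsmul_eq_mul]
    have : (Finset.range (J + 1)).filter (fun j => j ∈ U) = U := by
      rw [Finset.filter_mem_eq_inter, hU]
      exact Finset.inter_eq_right.2 (Finset.filter_subset _ _)
    rw [this]
  have hXpos : (0 : ℝ) < X := by
    have : 0 < X := by omega
    exact_mod_cast this
  obtain ⟨t, ht, htle⟩ := Finset.exists_le_of_sum_le (s := Finset.range X)
    (f := fun t => (N' t : ℝ)) (g := fun _ => (U.card : ℝ) * (B / X)) ⟨0, by simp; omega⟩ (by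
      rw [Finset.sum_const, Finset.card_range, nsmul_eq_mul]
      calc _ ≤ _ := hsum
        _ = _ := by field_simp)
  refine ⟨c t, ?_⟩
  refine le_trans ?_ htle
  exact_mod_cast hN t ht

end Pool.Agent.H85.Rho
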